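import Pool.Agent.W533.PP.Stm

/-!
# ICOUNT
-/

set_option autoImplicit false

namespace Pool.Agent.W554.PP

open Finset
open scoped Classical
open Pool.Agent.W533.PP

/-- the inversion sequences as a finset -/
noncomputable def Sn (n : ℕ) : Finset (Fin (n+1) → ℕ) :=
  (Fintype.piFinset (fun i : Fin (n+1) => range (i.val + 1))).filter (fun e => Inv e)

theorem mem_Sn {n : ℕ} (e : Fin (n+1) → ℕ) : e ∈ Sn n ↔ Inv e := by
  unfold Sn
  rw [mem_filter, Fintype.mem_piFinset]
  refine ⟨fun h => h.2, fun h => ⟨fun i => ?_, h⟩⟩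
  rw [mem_range]
  exact Nat.lt_succ_of_le (h.1 i)

theorem mem_aI {n : ℕ} (e : Fin (n+1) → ℕ) (x : ℕ) : x ∈ aI e ↔ ActI e x := by
  unfold aI
  rw [mem_filter, mem_range]
  refine ⟨fun h => h.2, fun h => ⟨?_, h⟩⟩
  have := h.1
  omega

/-- the weighted sum -/
noncomputable def Nn (n m : ℕ) : ℕ := ∑ e ∈ Sn n, T m (bL e) (aL e)

theorem Nn_succ (h1 : IINS) (h2 : ISUM) (n m : ℕ) : Nn (n+1) m = Nn n (m+1) := by
  unfold Nn
  rw [← sum_congr rfl (fun e he => h2 n e ((mem_Sn e).1 he) m), sum_sigma']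
  refine (sum_bij' (fun p _ => app p.1 p.2)
    (fun e _ => (⟨Fin.init e, e (Fin.last _)⟩ : Σ _ : Fin (n+1) → ℕ, ℕ)) ?_ ?_ ?_ ?_ ?_).symm
  · rintro ⟨e, x⟩ hp
    rw [mem_sigma] at hp
    rw [mem_Sn, h1]
    exact ⟨(mem_Sn e).1 hp.1, (mem_aI e x).1 hp.2⟩
  · intro e he
    rw [mem_Sn] at he
    have h3 : app (Fin.init e) (e (Fin.last _)) = e := Fin.snoc_init_self e
    rw [← h3, h1] at he
    rw [mem_sigma]
    exact ⟨(mem_Sn _).2 he.1, (mem_aI _ _).2 he.2⟩
  · rintro ⟨e, x⟩ hp
    have h3 : Fin.init (app e x) = e := Fin.init_snoc (α := fun _ => ℕ) x e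
    simp only [h3, app_last]
  · intro e he
    exact Fin.snoc_init_self e
  · rintro ⟨e, x⟩ hp
    rfl

theorem Nn_zero (m : ℕ) : Nn 0 m = T m 1 1 := by
  have h1 : Sn 0 = {fun _ => 0} := by
    ext e
    rw [mem_Sn, mem_singleton]
    constructor
    · intro h
      funext i
      have := h.1 i
      omega
    · rintro rfl
      refine ⟨fun i => Nat.zero_le _, fun i j k hij => ?_⟩
      exfalso
      have := i.isLt
      have := j.isLt
      have h3 : i.val < j.val := hij
      omega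
  have hact : ∀ x : ℕ, x ≤ 1 → ActI (fun _ : Fin (0+1) => 0) x := by
    intro x hx
    refine ⟨hx, fun i j hij => ?_⟩
    exfalso
    have := i.isLt
    have := j.isLt
    have h3 : i.val < j.val := hij
    omega
  have hM : Mx (fun _ : Fin (0+1) => 0) = 0 := by
    unfold Mx
    exact Nat.le_zero.1 (Finset.sup_le fun i _ => le_refl 0)
  have ha : aL (fun _ : Fin (0+1) => 0) = 1 := by
    unfold aL
    rw [hM, filter_true_of_mem]
    · simp
    · intro x hx
      rw [mem_range] at hx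
      exact hact x (by omega)
  have hb : bL (fun _ : Fin (0+1) => 0) = 1 := by
    unfold bL
    rw [hM, filter_true_of_mem]
    · simp
    · intro x hx
      rw [mem_Ico] at hx
      exact hact x (by omega)
  unfold Nn
  rw [h1, sum_singleton, ha, hb]

theorem Nn_eq (h1 : IINS) (h2 : ISUM) (n : ℕ) : ∀ m, Nn n m = T (n + m) 1 1 := by
  induction n with
  | zero => intro m; rw [Nn_zero, zero_add]
  | succ n ih =>
    intro m
    rw [Nn_succ h1 h2, ih]
    congr 1
    omega

theorem icount (h1 : IINS) (h2 : ISUM) : ICOUNT := by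
  intro n
  rw [Nat.subtype_card (Sn n) (fun e => mem_Sn e)]
  have h3 := Nn_eq h1 h2 n 0
  unfold Nn at h3
  simp only [T_zero, sum_const, smul_eq_mul, mul_one, add_zero] at h3
  exact h3

end Pool.Agent.W554.PP
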